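import Mathlib

/-!
Definitions for the greedy random walk (uniform rule) and its expected edge cover time.
-/

open MeasureTheory ProbabilityTheory
open scoped ENNReal

namespace Pool.Agent.MP_3173ec_pr

variable {V : Type}

/-- `H_t`: the set of edges traversed up to time `t` by the vertex sequence `X`. -/
def traversed (X : ℕ → V) (t : ℕ) : Set (Sym2 V) :=
  {e | ∃ s : ℕ, 0 < s ∧ s ≤ t ∧ e = s(X (s - 1), X s)}

/-- The other endpoints of the edges of `J_t(X_t)` (edges at `X_t` not in `H_t`). -/
def freshNbrs (G : SimpleGraph V) (X : ℕ → V) (t : ℕ) : Set V :=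
  {y | G.Adj (X t) y ∧ s(X t, y) ∉ traversed X t}

open Classical in
/-- The set on which `X_{t+1}` is uniform given the history up to time `t`. -/
noncomputable def nextSet (G : SimpleGraph V) (X : ℕ → V) (t : ℕ) : Set V :=
  if (freshNbrs G X t).Nonempty then freshNbrs G X t else G.neighborSet (X t)

/-- The edge cover time `min {t : H_t = E}` (infinite if there is no such `t`). -/
noncomputable def coverTime (G : SimpleGraph V) (X : ℕ → V) : ℝ≥0∞ :=
  ⨅ t ∈ {t : ℕ | traversed X t = G.edgeSet}, (t : ℝ≥0∞)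

/-- The law of `X_{t+1}` given the history `(X_i)_{i ≤ t}` on `K_n`. -/
noncomputable def stepKernel (n t : ℕ) : Kernel (Π _ : Finset.Iic t, Fin n) (Fin n) :=
  Kernel.ofFunOfCountable fun h =>
    uniformOn (nextSet (⊤ : SimpleGraph (Fin n))
      (fun i => h ⟨min i t, Finset.mem_Iic.2 (min_le_right i t)⟩) t)

theorem stepKernel_markov {n : ℕ} (hn : 2 ≤ n) (t : ℕ) : IsMarkovKernel (stepKernel n t) := by
  refine ⟨fun h => isProbabilityMeasure_uniformOn (Set.toFinite _) ?_⟩
  unfold nextSet
  split_ifs with hne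
  · exact hne
  · have : Nontrivial (Fin n) := Fin.nontrivial_iff_two_le.2 hn
    obtain ⟨w, hw⟩ := exists_ne (h ⟨min t t, Finset.mem_Iic.2 (min_le_right t t)⟩)
    exact ⟨w, hw.symm⟩

/-- The law of the greedy random walk on `K_n` (`n ≥ 2`) started at `v`, as a probability measure
on vertex sequences (Ionescu-Tulcea). -/
noncomputable def law {n : ℕ} (hn : 2 ≤ n) (v : Fin n) : Measure (ℕ → Fin n) :=
  haveI := stepKernel_markov hn
  Kernel.trajMeasure (X := fun _ => Fin n) (Measure.dirac v) (stepKernel n)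

/-- The expected edge cover time of the greedy random walk on `K_n` started at `v`. -/
noncomputable def expCover {n : ℕ} (hn : 2 ≤ n) (v : Fin n) : ℝ≥0∞ :=
  ∫⁻ X, coverTime (⊤ : SimpleGraph (Fin n)) X ∂(law hn v)

end Pool.Agent.MP_3173ec_pr
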